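import Mathlib

set_option autoImplicit false

namespace Pool.Agent.Results.MP_2bbbb5_co.Tournaments

open Classical

universe u

variable {V : Type u} (A : V → V → Prop)

/-- Number of entries `y` of the list with `x → y`. -/
noncomputable def cOut (x : V) (l : List V) : ℕ := l.countP (fun y => decide (A x y))

/-- Number of entries `y` of the list with `y → x`. -/
noncomputable def cIn (x : V) (l : List V) : ℕ := l.countP (fun y => decide (A y x))

/-- Number of forward arcs of the order given by a list. -/
noncomputable def wt : List V → ℕ
  | [] => 0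
  | x :: l => cOut A x l + wt l

lemma wt_move (x : V) (c : List V) : ∀ b : List V,
    wt A (b ++ x :: c) + cOut A x b = wt A (x :: (b ++ c)) + cIn A x b
  | [] => by simp [wt, cOut, cIn]
  | y :: b => by
      have ih := wt_move x c b
      simp only [wt, cOut, cIn, List.cons_append, List.countP_append, List.countP_cons] at ih ⊢
      omega

lemma wt_perm (l₁ l₂ : List V) (h : l₁.Perm l₂) : ∀ a : List V,
    wt A (a ++ l₁) + wt A l₂ = wt A (a ++ l₂) + wt A l₁
  | [] => by simp [Nat.add_comm]
  | y :: a => by
      have ih := wt_perm l₁ l₂ h a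
      have h1 : cOut A y (a ++ l₁) = cOut A y (a ++ l₂) := by
        simp only [cOut, List.countP_append, h.countP_eq]
      simp only [wt, List.cons_append]
      omega

/-- A median order of the finite set `F`. -/
def IsMed (F : Finset V) (l : List V) : Prop :=
  l.Perm F.toList ∧ ∀ l', l'.Perm F.toList → wt A l' ≤ wt A l

lemma exists_med (F : Finset V) : ∃ l, IsMed A F l := by
  obtain ⟨l, hl, hmax⟩ := (F.toList.permutations.toFinset).exists_max_image (wt A)
    ⟨F.toList, by simp⟩
  refine ⟨l, by simpa using hl, fun l' hl' => hmax l' (by simpa using hl')⟩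

lemma med_back {F : Finset V} {l : List V} (h : IsMed A F l) {a b c : List V} {x : V}
    (hl : l = a ++ (b ++ x :: c)) : cOut A x b ≤ cIn A x b := by
  have hp : (b ++ x :: c).Perm (x :: (b ++ c)) := List.perm_middle
  have h1 := wt_perm A _ _ hp a
  have h2 := wt_move A x c b
  have h3 : (a ++ (x :: (b ++ c))).Perm F.toList :=
    ((List.Perm.append_left a hp).symm).trans (hl ▸ h.1)
  have h4 := h.2 _ h3
  rw [hl] at h4
  omega

lemma med_front {F : Finset V} {l : List V} (h : IsMed A F l) {a b c : List V} {x : V}
    (hl : l = a ++ (x :: (b ++ c))) : cIn A x b ≤ cOut A x b := by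
  have hp : (b ++ x :: c).Perm (x :: (b ++ c)) := List.perm_middle
  have h1 := wt_perm A _ _ hp a
  have h2 := wt_move A x c b
  have h3 : (a ++ (b ++ x :: c)).Perm F.toList :=
    (List.Perm.append_left a hp).trans (hl ▸ h.1)
  have h4 := h.2 _ h3
  rw [hl] at h4
  omega

/-- The feedback property used in the proof of Havet and Thomassé. -/
def FB (l : List V) : Prop :=
  ∀ (a b c : List V) (x : V), l = a ++ (b ++ x :: c) → cOut A x b ≤ cIn A x b

/-- Vertices of `l` that dominate `f` and are reached from `f` by a 2-path inside `l`. -/
noncomputable def good (f : V) (l : List V) (w : V) : Bool :=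
  decide (A w f ∧ ∃ y ∈ l, A f y ∧ A y w)

lemma good_mono {f : V} {l l' : List V} (h : ∀ y ∈ l, y ∈ l') (w : V) :
    good A f l w = true → good A f l' w = true := by
  simp only [good, decide_eq_true_eq]
  rintro ⟨h1, y, hy, h2, h3⟩
  exact ⟨h1, y, h y hy, h2, h3⟩

variable {A}

/-- The counting argument of Havet and Thomassé. -/
lemma feed (htot : ∀ x y, x ≠ y → A x y ∨ A y x) (hasym : ∀ x y, A x y → ¬ A y x) (f : V) :
    ∀ (t s : List V), FB A (s ++ t ++ [f]) → (∀ y ∈ s ++ t, y ≠ f) →
      (∀ w ∈ s, A w f → good A f s w = true) →
      cOut A f (s ++ t) ≤ (s ++ t).countP (good A f (s ++ t))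
  | [], s, hFB, hne, hs => by
      simp only [List.append_nil] at *
      have h1 : cOut A f s ≤ cIn A f s := hFB [] s [] f (by simp)
      refine h1.trans ?_
      refine List.countP_mono_left ?_
      intro w hw h
      exact hs w hw (by simpa using h)
  | v :: t, s, hFB, hne, hs => by
      by_cases hbad : A v f ∧ ∀ y ∈ s, A f y → ¬ A y v
      · -- `v` is bad
        have hvf : v ≠ f := hne v (by simp)
        have h1 : cOut A f s ≤ cOut A v s := by
          refine List.countP_mono_left ?_
          intro y hy h
          have h' : A f y := by simpa using h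
          have hyv : y ≠ v := by
            rintro rfl
            exact hasym _ _ hbad.1 h'
          rcases htot v y (Ne.symm hyv) with h2 | h2
          · simpa using h2
          · exact absurd h2 (hbad.2 y hy h')
        have h2 : cOut A v s ≤ cIn A v s := hFB [] s (t ++ [f]) v (by simp)
        have h3 : cIn A v s ≤ s.countP (good A f (s ++ v :: t)) := by
          refine List.countP_mono_left ?_
          intro y hy h
          have h' : A y v := by simpa using h
          have hyf : y ≠ f := hne y (by simp [hy])
          have hyf' : A y f := by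
            rcases htot y f hyf with h4 | h4
            · exact h4
            · exact absurd h' (hbad.2 y hy h4)
          exact good_mono A (by intro z hz; simp [hz]) y (hs y hy hyf')
        have ih := feed htot hasym f t [] (by
            intro a b c x hl
            refine hFB (s ++ v :: a) b c x ?_
            simp only [List.nil_append] at hl
            simp only [List.append_assoc, List.cons_append]
            rw [hl]) (by
            intro y hy
            exact hne y (by simp only [List.nil_append] at hy; simp [hy])) (by simp)
        simp only [List.nil_append] at ih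
        have h4 : t.countP (good A f t) ≤ t.countP (good A f (s ++ v :: t)) := by
          refine List.countP_mono_left ?_
          intro y hy h
          exact good_mono A (by intro z hz; simp [hz]) y h
        have h5 : cOut A f (s ++ v :: t) = cOut A f s + cOut A f t := by
          have : ¬ A f v := hasym _ _ hbad.1
          simp [cOut, List.countP_append, this]
        have h6 : (s ++ v :: t).countP (good A f (s ++ v :: t)) ≥
            s.countP (good A f (s ++ v :: t)) + t.countP (good A f (s ++ v :: t)) := by
          rw [List.countP_append, List.countP_cons]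
          omega
        omega
      · have h := feed htot hasym f t (s ++ [v]) (by simpa using hFB) (by simpa using hne) (by
          intro w hw hwf
          rw [List.mem_append, List.mem_singleton] at hw
          rcases hw with hw | hw
          · exact good_mono A (by intro z hz; simp [hz]) w (hs w hw hwf)
          · subst hw
            push Not at hbad
            obtain ⟨y, hy, h1, h2⟩ := hbad hwf
            simp only [good, decide_eq_true_eq]
            exact ⟨hwf, y, by simp [hy], h1, h2⟩)
        simpa using h

/-- The out-neighbourhood of `v`. -/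
def nOut (A : V → V → Prop) (v : V) : Set V := {w | A v w}

/-- The set of vertices at out-distance exactly two from `v`. -/
def nTwo (A : V → V → Prop) (v : V) : Set V := {w | w ≠ v ∧ ¬ A v w ∧ ∃ u, A v u ∧ A u w}

lemma nTwo_finite (hfin : ∀ v, (nOut A v).Finite) (v : V) : (nTwo A v).Finite := by
  refine ((hfin v).biUnion (fun u _ => hfin u)).subset ?_
  rintro w ⟨_, _, u, h1, h2⟩
  exact Set.mem_biUnion (show u ∈ nOut A v from h1) h2

lemma ncard_eq_cOut {l : List V} (hl : l.Nodup) (v : V) (hfin : (nOut A v).Finite)
    (hsub : ∀ w, A v w → w ∈ l) : (nOut A v).ncard = cOut A v l := by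
  have h1 : cOut A v l = (l.filter (fun y => decide (A v y))).toFinset.card := by
    rw [cOut, List.countP_eq_length_filter, List.toFinset_card_of_nodup (hl.filter _)]
  have h2 : nOut A v = ((l.filter (fun y => decide (A v y))).toFinset : Set V) := by
    ext w
    simp only [nOut, Set.mem_ofPred_eq, List.coe_toFinset, List.mem_filter, decide_eq_true_eq]
    exact ⟨fun h => ⟨hsub w h, h⟩, fun h => h.2⟩
  rw [h1, h2, Set.ncard_coe_finset]

lemma good_le_ncard (hasym : ∀ x y, A x y → ¬ A y x) {l : List V} (hl : l.Nodup) (v : V)
    (hfin : ∀ v, (nOut A v).Finite) : l.countP (good A v l) ≤ (nTwo A v).ncard := by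
  have h1 : l.countP (good A v l) = (l.filter (good A v l)).toFinset.card := by
    rw [List.countP_eq_length_filter, List.toFinset_card_of_nodup (hl.filter _)]
  rw [h1, ← Set.ncard_coe_finset]
  refine Set.ncard_le_ncard ?_ (nTwo_finite hfin v)
  intro w hw
  simp only [List.coe_toFinset, List.mem_filter, good, decide_eq_true_eq, Set.mem_ofPred_eq] at hw
  obtain ⟨_, h2, y, _, h3, h4⟩ := hw
  refine ⟨?_, hasym _ _ h2, y, h3, h4⟩
  rintro rfl
  exact hasym _ _ h2 h2

/-- If the last vertex of a median order of `F` has all its out-neighbours in `F`, it satisfies the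
conclusion of the second neighbourhood conjecture. -/
lemma last_good (htot : ∀ x y, x ≠ y → A x y ∨ A y x) (hasym : ∀ x y, A x y → ¬ A y x)
    (hfin : ∀ v, (nOut A v).Finite) {F : Finset V} {l : List V} (h : IsMed A F l) {a : List V}
    {v : V} (hl : l = a ++ [v]) (hsub : ∀ w, A v w → w ∈ F) :
    (nOut A v).ncard ≤ (nTwo A v).ncard := by
  have hnd : l.Nodup := h.1.nodup_iff.mpr F.nodup_toList
  rw [hl] at hnd
  have hnda : a.Nodup := (List.nodup_append.mp hnd).1
  have hva : ∀ y ∈ a, y ≠ v := by
    intro y hy hyv
    exact (List.nodup_append.mp hnd).2.2 y hy v (by simp) hyv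
  have hmem : ∀ w, A v w → w ∈ a := by
    intro w hw
    have h1 : w ∈ l := h.1.mem_iff.mpr (by simpa using hsub w hw)
    rw [hl, List.mem_append, List.mem_singleton] at h1
    rcases h1 with h1 | h1
    · exact h1
    · subst h1
      exact absurd hw (hasym _ _ hw)
  have hFB : FB A (a ++ [v]) := by
    intro a' b c x hx
    exact med_back A h (hl.trans hx)
  have h2 := feed htot hasym v a [] (by simpa using hFB) (by simpa using hva) (by simp)
  simp only [List.nil_append] at h2
  rw [ncard_eq_cOut hnda v (hfin v) hmem]
  exact h2.trans (good_le_ncard hasym hnda v hfin)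

lemma last_split (P : V → Prop) : ∀ c : List V, (∃ y ∈ c, P y) →
    ∃ (b c' : List V) (y : V), c = b ++ y :: c' ∧ P y ∧ ∀ z ∈ c', ¬ P z
  | [], h => by simp at h
  | x :: c, h => by
      by_cases h1 : ∃ y ∈ c, P y
      · obtain ⟨b, c', y, h2, h3, h4⟩ := last_split P c h1
        exact ⟨x :: b, c', y, by simp [h2], h3, h4⟩
      · push Not at h1
        obtain ⟨y, hy, hPy⟩ := h
        rcases List.mem_cons.mp hy with h2 | h2
        · subst h2
          exact ⟨[], c, y, by simp, hPy, h1⟩
        · exact absurd hPy (h1 y h2)

/-- The set of vertices whose second out-neighbourhood is at least as large as the first. -/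
def star (A : V → V → Prop) : Set V := {v | (nOut A v).ncard ≤ (nTwo A v).ncard}

lemma split_count (htot : ∀ x y, x ≠ y → A x y ∨ A y x) (hasym : ∀ x y, A x y → ¬ A y x) (v : V) :
    ∀ c : List V, v ∉ c → c.length = cIn A v c + cOut A v c
  | [], _ => by simp [cIn, cOut]
  | y :: c, h => by
      have hy : v ≠ y := by rintro rfl; simp at h
      have ih := split_count htot hasym v c (fun hc => h (by simp [hc]))
      simp only [cIn, cOut, List.countP_cons, List.length_cons] at ih ⊢
      rcases htot v y hy with h1 | h1
      · have h2 := hasym _ _ h1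
        simp [h1, h2]
        omega
      · have h2 := hasym _ _ h1
        simp [h1, h2]
        omega

/-- In a median order of all the vertices, a vertex outside `star A` has strictly more out-neighbours
than in-neighbours behind it. -/
lemma strict_front [Fintype V] (htot : ∀ x y, x ≠ y → A x y ∨ A y x)
    (hasym : ∀ x y, A x y → ¬ A y x) {l : List V} (h : IsMed A Finset.univ l) {a c : List V} {x : V}
    (hl : l = a ++ x :: c) (hx : x ∉ star A) : cIn A x c < cOut A x c := by
  have hfin : ∀ v, (nOut A v).Finite := fun v => Set.toFinite _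
  refine lt_of_le_of_ne (med_front A h (a := a) (b := c) (c := []) (by simpa using hl)) ?_
  intro heq
  apply hx
  have hp : (c ++ [x]).Perm (x :: c) := by simpa using (List.perm_middle (a := x) (l₁ := c) (l₂ := []))
  have h1 := wt_perm A _ _ hp a
  have h2 := wt_move A x [] c
  simp only [List.append_nil] at h2
  have hm : IsMed A Finset.univ (a ++ (c ++ [x])) := by
    refine ⟨(List.Perm.append_left a hp).trans (hl ▸ h.1), fun l' hl' => ?_⟩
    have h3 := h.2 l' hl'
    rw [hl] at h3
    omega
  exact last_good htot hasym hfin hm (a := a ++ c) (v := x) (by simp) (fun w _ => Finset.mem_univ w)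

/-- A walk of length `m` from `x` to a vertex of `star A`. -/
def WalkToStar (A : V → V → Prop) (x : V) (m : ℕ) : Prop :=
  ∃ p : Fin (m + 1) → V, p 0 = x ∧ (∀ i : Fin m, A (p i.castSucc) (p i.succ)) ∧
    p (Fin.last m) ∈ star A

lemma WalkToStar.cons {x y : V} {m : ℕ} (hxy : A x y) (h : WalkToStar A y m) :
    WalkToStar A x (m + 1) := by
  obtain ⟨p, h0, h1, h2⟩ := h
  refine ⟨Fin.cons x p, by simp, ?_, ?_⟩
  · intro i
    refine Fin.cases ?_ (fun j => ?_) i
    · simpa [h0] using hxy
    · have := h1 j
      simpa [Fin.cons_succ] using this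
  · have : (Fin.last (m + 1)) = (Fin.last m).succ := rfl
    rw [this, Fin.cons_succ]
    exact h2

lemma walk_bound [Fintype V] (htot : ∀ x y, x ≠ y → A x y ∨ A y x)
    (hasym : ∀ x y, A x y → ¬ A y x) {l : List V} (h : IsMed A Finset.univ l) :
    ∀ (n : ℕ) (a c : List V) (x : V), c.length = n → l = a ++ x :: c →
      ∃ m, m ≤ Nat.log 2 (n + 1) ∧ WalkToStar A x m := by
  intro n
  induction n using Nat.strong_induction_on with
  | _ n ih =>
    intro a c x hc hl
    by_cases hx : x ∈ star A
    · exact ⟨0, Nat.zero_le _, fun _ => x, rfl, fun i => i.elim0, hx⟩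
    · have h1 := strict_front htot hasym h hl hx
      have hnd : l.Nodup := h.1.nodup_iff.mpr (Finset.nodup_toList _)
      rw [hl] at hnd
      have hxc : x ∉ c := (List.nodup_cons.mp (List.nodup_append.mp hnd).2.1).1
      have h2 := split_count htot hasym x c hxc
      have h3 : ∃ y ∈ c, A x y := by
        have : 0 < cOut A x c := by omega
        rw [cOut, List.countP_pos_iff] at this
        obtain ⟨y, hy, hA⟩ := this
        exact ⟨y, hy, by simpa using hA⟩
      obtain ⟨b, c', y, h4, h5, h6⟩ := last_split (fun y => A x y) c h3
      have h7 : c'.length ≤ cIn A x c := by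
        have h8 : cOut A x c' = 0 := by
          rw [cOut, List.countP_eq_zero]
          intro z hz
          simpa using h6 z hz
        have h9 := split_count htot hasym x c' (fun hz => hxc (by rw [h4]; simp [hz]))
        have h10 : cIn A x c' ≤ cIn A x c := by
          rw [h4]
          simp only [cIn, List.countP_append, List.countP_cons]
          omega
        omega
      obtain ⟨m, hm, hw⟩ := ih c'.length (by omega) (a ++ x :: b) c' y rfl (by
        rw [hl, h4]; simp)
      refine ⟨m + 1, ?_, hw.cons h5⟩
      have h11 : 2 * (c'.length + 1) ≤ n + 1 := by omega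
      have h12 : Nat.log 2 ((c'.length + 1) * 2) = Nat.log 2 (c'.length + 1) + 1 :=
        Nat.log_mul_base (by norm_num) (by omega)
      have h13 : Nat.log 2 ((c'.length + 1) * 2) ≤ Nat.log 2 (n + 1) :=
        Nat.log_mono_right (by omega)
      omega

/-- Burckel's statement for tournaments, with a logarithmic bound: from a vertex `x` of out-degree
`k` some vertex whose second out-neighbourhood is at least as large as its first one can be reached
by a directed walk of length at most `k`, and in fact of length at most `⌊log₂ k⌋ + 1`. -/
theorem result (V : Type u) [Fintype V] (A : V → V → Prop)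
    (hasym : ∀ x y, A x y → ¬ A y x)
    (htot : ∀ x y, x ≠ y → A x y ∨ A y x) (x : V) :
    ∃ m : ℕ, m ≤ (nOut A x).ncard ∧ m ≤ Nat.log 2 (nOut A x).ncard + 1 ∧
      ∃ p : Fin (m + 1) → V, p 0 = x ∧ (∀ i : Fin m, A (p i.castSucc) (p i.succ)) ∧
        (nOut A (p (Fin.last m))).ncard ≤ (nTwo A (p (Fin.last m))).ncard := by
  by_cases hx : x ∈ star A
  · exact ⟨0, Nat.zero_le _, Nat.zero_le _, fun _ => x, rfl, fun i => i.elim0, hx⟩
  · obtain ⟨l, hl⟩ := exists_med A (Finset.univ : Finset V)
    have hmem : x ∈ l := hl.1.mem_iff.mpr (by simp)
    obtain ⟨a, c, hac⟩ := List.append_of_mem hmem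
    have h1 := strict_front htot hasym hl hac hx
    have hnd : l.Nodup := hl.1.nodup_iff.mpr (Finset.nodup_toList _)
    rw [hac] at hnd
    have hnd' := List.nodup_cons.mp (List.nodup_append.mp hnd).2.1
    have h2 := split_count htot hasym x c hnd'.1
    have h3 : cOut A x c ≤ (nOut A x).ncard := by
      have h4 : cOut A x c = (c.filter (fun y => decide (A x y))).toFinset.card := by
        rw [cOut, List.countP_eq_length_filter, List.toFinset_card_of_nodup (hnd'.2.filter _)]
      rw [h4, ← Set.ncard_coe_finset]
      refine Set.ncard_le_ncard ?_ (Set.toFinite _)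
      intro w hw
      simp only [List.coe_toFinset, List.mem_filter, decide_eq_true_eq, Set.mem_ofPred_eq] at hw
      exact hw.2
    obtain ⟨m, hm, p, hp0, hp1, hp2⟩ := walk_bound htot hasym hl c.length a c x rfl hac
    set k := (nOut A x).ncard with hk
    have hk1 : 1 ≤ k := by omega
    have h5 : c.length + 1 ≤ k * 2 := by omega
    have h6 : Nat.log 2 (k * 2) = Nat.log 2 k + 1 := Nat.log_mul_base (by norm_num) (by omega)
    have h7 : Nat.log 2 (c.length + 1) ≤ Nat.log 2 (k * 2) := Nat.log_mono_right h5
    have h8 : Nat.log 2 k < k := Nat.log_lt_self 2 (by omega)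
    exact ⟨m, by omega, by omega, p, hp0, hp1, hp2⟩

end Pool.Agent.Results.MP_2bbbb5_co.Tournaments
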